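import Pool.Agent.Lib.MP_b53bfe_ag.Quo
import Pool.Agent.Lib.MP_b53bfe_ag.All2

/-!
# The small diagonal of the Fermat hypersurface of degree `d ≤ n + 2` in `ℙ^(n+1)`: projective version
-/

set_option autoImplicit false

noncomputable section

namespace Pool.Agent.Results.MP_b53bfe_ag.FermatDiagonalRelation

/-- The polynomial ring over `ℂ` in the entries `x_{ij}` of a matrix with three rows and `n + 2` columns. -/
abbrev Pol (n : ℕ) : Type := MvPolynomial (Fin 3 × Fin (n + 2)) ℂ

/-- The `ℤ³`-degree of the variable `x_{ij}`: the `i`-th unit vector. -/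
def deg (n : ℕ) (p : Fin 3 × Fin (n + 2)) : Fin 3 → ℤ := Pi.single p.1 1

/-- `r` is homogeneous of degree `a ∈ ℤ³`. -/
def Homog (n : ℕ) (r : Pol n) (a : Fin 3 → ℤ) : Prop := MvPolynomial.IsWeightedHomogeneous (deg n) r a

/-- The Fermat form `∑_j x_{ij} ^ d` in the variables of the `i`-th row. -/
def fermat (n d : ℕ) (i : Fin 3) : Pol n := ∑ j : Fin (n + 2), MvPolynomial.X (i, j) ^ d

/-- A finitely generated `ℤ³`-graded module over `Pol n ⧸ (f_1, f_2, f_3)`, the coordinate ring of
`X × X × X`, where `X` is the Fermat hypersurface of degree `d` in `ℙ^(n+1)`: a finitely generated module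
over `Pol n`, killed by the three Fermat forms, the direct sum of subgroups `comp a`, `a ∈ ℤ³`, such that
homogeneous polynomials of degree `a` map `comp b` to `comp (a + b)`. -/
structure GrMod (n d : ℕ) where
  carrier : Type
  [grp : AddCommGroup carrier]
  [mod : Module (Pol n) carrier]
  fin : Module.Finite (Pol n) carrier
  form_smul : ∀ (i : Fin 3) (m : carrier), fermat n d i • m = 0
  comp : (Fin 3 → ℤ) → AddSubgroup carrier
  internal : DirectSum.IsInternal comp
  smul_mem : ∀ (r : Pol n) (a b : Fin 3 → ℤ) (m : carrier), Homog n r a → m ∈ comp b → r • m ∈ comp (a + b)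

attribute [instance] GrMod.grp GrMod.mod

/-- There is an exact sequence `0 → A → B → C → 0` of graded modules (with maps of degree `0`). -/
def ShortExact {n d : ℕ} (A B C : GrMod n d) : Prop :=
  ∃ (i : A.carrier →ₗ[Pol n] B.carrier) (p : B.carrier →ₗ[Pol n] C.carrier),
    (∀ a, ∀ x ∈ A.comp a, i x ∈ B.comp a) ∧ (∀ a, ∀ x ∈ B.comp a, p x ∈ C.comp a) ∧
      Function.Injective i ∧ Function.Surjective p ∧ Function.Exact i p

/-- For some row `i`, `M` is killed by a power of each variable `x_{ij}` (then the sheaf of `M` on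
`X × X × X` is zero). -/
def Irrelevant {n d : ℕ} (M : GrMod n d) : Prop :=
  ∃ (i : Fin 3) (k : ℕ), ∀ (j : Fin (n + 2)) (m : M.carrier), (MvPolynomial.X (i, j) : Pol n) ^ k • m = 0

/-- The subspace spanned by all `[B] - [A] - [C]` for exact sequences `0 → A → B → C → 0` and by all `[M]`
for irrelevant `M`. -/
def relations (n d : ℕ) : Submodule ℚ (GrMod n d →₀ ℚ) :=
  Submodule.span ℚ
    ({x | ∃ A B C : GrMod n d, ShortExact A B C ∧
        x = Finsupp.single B 1 - Finsupp.single A 1 - Finsupp.single C 1} ∪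
      {x | ∃ M : GrMod n d, Irrelevant M ∧ x = Finsupp.single M 1})

/-- `K₀(X × X × X) ⊗ ℚ`: the Grothendieck group with rational coefficients of the finitely generated
graded modules modulo the classes of the irrelevant ones. -/
abbrev K0 (n d : ℕ) : Type 1 := (GrMod n d →₀ ℚ) ⧸ relations n d

/-- The class `[M]` of a graded module (of its sheaf). -/
def cls {n d : ℕ} (M : GrMod n d) : K0 n d := Submodule.Quotient.mk (Finsupp.single M 1)

/-- The component of degree `a` of the shifted graded module `(Pol n ⧸ (A))(e)`, for a set `A` of homogeneous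
polynomials: the classes of the homogeneous polynomials of degree `a + e`. -/
def quoComp (n : ℕ) (A : Set (Pol n)) (e a : Fin 3 → ℤ) : AddSubgroup (Pol n ⧸ Ideal.span A) :=
  AddSubgroup.map (Ideal.Quotient.mk (Ideal.span A)).toAddMonoidHom
    (MvPolynomial.weightedHomogeneousSubmodule ℂ (deg n) (a + e)).toAddSubgroup

theorem quoComp_internal (n : ℕ) (A : Set (Pol n)) (hA : ∀ r ∈ A, ∃ a, Homog n r a) (e : Fin 3 → ℤ) :
    DirectSum.IsInternal (quoComp n A e) :=
  Pool.Agent.FY.Quo.isInternal_comp (deg n) A hA e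

theorem quoComp_smul (n : ℕ) (A : Set (Pol n)) (e : Fin 3 → ℤ) (r : Pol n) (a b : Fin 3 → ℤ) (m : Pol n ⧸ Ideal.span A)
    (hr : Homog n r a) (hm : m ∈ quoComp n A e b) : r • m ∈ quoComp n A e (a + b) := by
  obtain ⟨p, hp, rfl⟩ := hm
  exact ⟨r * p, add_assoc a b e ▸ hr.mul hp, rfl⟩

theorem quo_form (n d : ℕ) (A : Set (Pol n)) (hf : ∀ i, fermat n d i ∈ A) (i : Fin 3) (m : Pol n ⧸ Ideal.span A) :
    fermat n d i • m = 0 := by
  obtain ⟨p, rfl⟩ := Ideal.Quotient.mk_surjective m
  rw [← Ideal.Quotient.mk_eq_mk, ← Submodule.Quotient.mk_smul, Submodule.Quotient.mk_eq_zero, smul_eq_mul]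
  exact Ideal.mul_mem_right _ _ (Ideal.subset_span (hf i))

/-- The shifted graded module `(Pol n ⧸ (A))(e)`, for a set `A` of homogeneous polynomials which
contains the Fermat forms. -/
def quo (n d : ℕ) (A : Set (Pol n)) (hf : ∀ i, fermat n d i ∈ A) (hA : ∀ r ∈ A, ∃ a, Homog n r a)
    (e : Fin 3 → ℤ) : GrMod n d where
  carrier := Pol n ⧸ Ideal.span A
  fin := inferInstance
  form_smul := quo_form n d A hf
  comp := quoComp n A e
  internal := quoComp_internal n A hA e
  smul_mem := quoComp_smul n A e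

/-- The minor of the rows `i`, `i'` and the columns `j`, `j'`. -/
def minor (n : ℕ) (i i' : Fin 3) (j j' : Fin (n + 2)) : Pol n :=
  MvPolynomial.X (i, j) * MvPolynomial.X (i', j') - MvPolynomial.X (i, j') * MvPolynomial.X (i', j)

theorem fermat_homog (n d : ℕ) (i : Fin 3) : Homog n (fermat n d i) (d • Pi.single i 1) := by
  refine MvPolynomial.IsWeightedHomogeneous.sum _ _ _ fun j _ => ?_
  exact (MvPolynomial.isWeightedHomogeneous_X ℂ (deg n) (i, j)).pow d

theorem minor_homog (n : ℕ) (i i' : Fin 3) (j j' : Fin (n + 2)) :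
    Homog n (minor n i i' j j') (Pi.single i 1 + Pi.single i' 1) := by
  have h1 := (MvPolynomial.isWeightedHomogeneous_X ℂ (deg n) (i, j)).mul
    (MvPolynomial.isWeightedHomogeneous_X ℂ (deg n) (i', j'))
  have h2 := (MvPolynomial.isWeightedHomogeneous_X ℂ (deg n) (i, j')).mul
    (MvPolynomial.isWeightedHomogeneous_X ℂ (deg n) (i', j))
  exact h1.sub h2

/-- The generators of the ideal of the small diagonal in `X × X × X`: the Fermat forms and the `2 × 2` minors. -/
def smallGens (n d : ℕ) : Set (Pol n) := {r | ∃ i i' j j', r = minor n i i' j j'} ∪ Set.range (fermat n d)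

/-- The generators of the ideal of the diagonal `Δ_{ik} = {x_i = x_k}` in `X × X × X`: the Fermat forms and the minors
of the rows `i`, `k`. -/
def pairGens (n d : ℕ) (i k : Fin 3) : Set (Pol n) := {r | ∃ j j', r = minor n i k j j'} ∪ Set.range (fermat n d)

theorem forms_homog (n d : ℕ) : ∀ r ∈ Set.range (fermat n d), ∃ a, Homog n r a := by
  rintro _ ⟨i, rfl⟩
  exact ⟨_, fermat_homog n d i⟩

theorem smallGens_homog (n d : ℕ) : ∀ r ∈ smallGens n d, ∃ a, Homog n r a := by
  rintro r (⟨i, i', j, j', rfl⟩ | hr)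
  · exact ⟨_, minor_homog n i i' j j'⟩
  · exact forms_homog n d r hr

theorem pairGens_homog (n d : ℕ) (i k : Fin 3) : ∀ r ∈ pairGens n d i k, ∃ a, Homog n r a := by
  rintro r (⟨j, j', rfl⟩ | hr)
  · exact ⟨_, minor_homog n i k j j'⟩
  · exact forms_homog n d r hr

/-- The graded module of the line bundle `O(e)` on `X × X × X`. -/
def line (n d : ℕ) (e : Fin 3 → ℤ) : GrMod n d :=
  quo n d (Set.range (fermat n d)) (fun i => ⟨i, rfl⟩) (forms_homog n d) e

/-- The graded module of the sheaf `O_{Δ_ik}(e)` on `X × X × X`. -/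
def pairDiag (n d : ℕ) (i k : Fin 3) (e : Fin 3 → ℤ) : GrMod n d :=
  quo n d (pairGens n d i k) (fun i => Or.inr ⟨i, rfl⟩) (pairGens_homog n d i k) e

/-- The graded module of the structure sheaf `O_Δ` of the small diagonal `Δ = {x_1 = x_2 = x_3}` in `X × X × X`. -/
def smallDiag (n d : ℕ) : GrMod n d :=
  quo n d (smallGens n d) (fun i => Or.inr ⟨i, rfl⟩) (smallGens_homog n d) 0

open Pool.Agent.FY in
/-- the graded module of `M` with the components `c` -/
def toGr (m d : ℕ) (M : Type) [AddCommGroup M] [Module (Pol (m + 1)) M] (c : Dg → M →+ M)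
    (h : IsGr m c ∧ Module.Finite (Po (Ix m)) M ∧ Kil (Set.range (sF m d)) M) : GrMod (m + 1) d where
  carrier := M
  fin := h.2.1
  form_smul i x := h.2.2 _ ⟨i, rfl⟩ x
  comp a :=
    { carrier := {x | c a x = x}
      add_mem' := fun {x y} hx hy => by
        show c a (x + y) = x + y
        rw [map_add, hx, hy]
      zero_mem' := map_zero _
      neg_mem' := fun {x} hx => by
        show c a (-x) = -x
        rw [map_neg, hx] }
  internal := Quo.isInternal_of_proj c h.1.fin h.1.sum h.1.same h.1.orth _ (fun a x => Iff.rfl)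
  smul_mem r a b x hr hx := by
    have h1 : Hg m r a := (tGi tGa m).1 r a hr
    have h2 := h1 M c h.1 b x
    show c (a + b) (r • x) = r • x
    rw [add_comm a b, h2]
    exact congrArg (r • ·) hx

theorem mk_congr {n d : ℕ} {C : Type} [AddCommGroup C] [Module (Pol n) C] (h1 h1' : Module.Finite (Pol n) C)
    (h2 h2' : ∀ (i : Fin 3) (m : C), fermat n d i • m = 0) {comp comp' : (Fin 3 → ℤ) → AddSubgroup C} (h : comp = comp')
    (h3 : DirectSum.IsInternal comp) (h3' : DirectSum.IsInternal comp')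
    (h4 : ∀ (r : Pol n) (a b : Fin 3 → ℤ) (m : C), Homog n r a → m ∈ comp b → r • m ∈ comp (a + b))
    (h4' : ∀ (r : Pol n) (a b : Fin 3 → ℤ) (m : C), Homog n r a → m ∈ comp' b → r • m ∈ comp' (a + b)) :
    (⟨C, h1, h2, comp, h3, h4⟩ : GrMod n d) = ⟨C, h1', h2', comp', h3', h4'⟩ := by
  subst h
  rfl

open Pool.Agent.FY in
theorem toGr_quo (m d : ℕ) (A : Set (Pol (m + 1))) (hf : ∀ i, fermat (m + 1) d i ∈ A)
    (hA : ∀ r ∈ A, ∃ a, Homog (m + 1) r a) (e : Fin 3 → ℤ)
    (h : IsGr m (sh (cQ (cP m) (Ideal.span A)) e) ∧ Module.Finite (Po (Ix m)) (Po (Ix m) ⧸ Ideal.span A) ∧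
      Kil (Set.range (sF m d)) (Po (Ix m) ⧸ Ideal.span A)) :
    toGr m d (Po (Ix m) ⧸ Ideal.span A) (sh (cQ (cP m) (Ideal.span A)) e) h = quo (m + 1) d A hf hA e := by
  refine mk_congr _ _ _ _ (funext fun a => AddSubgroup.ext fun x => ?_) _ _ _ _
  have hst : Stb (cP m) (Ideal.span A) := ((tGi tGa m).2.2 A hA).1
  obtain ⟨p, rfl⟩ := Ideal.Quotient.mk_surjective x
  constructor
  · intro hx
    refine ⟨MvPolynomial.weightedHomogeneousComponent (dg (n := m)) (a + e) p,
      MvPolynomial.weightedHomogeneousComponent_isWeightedHomogeneous _ _, ?_⟩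
    exact (cQ_mk hst (a + e) p).symm.trans hx
  · rintro ⟨q, hq, hqp⟩
    have h1 : sh (cQ (cP m) (Ideal.span A)) e a (Ideal.Quotient.mk (Ideal.span A) q) = Ideal.Quotient.mk (Ideal.span A) q := by
      refine (cQ_mk hst (a + e) q).trans (congrArg _ ?_)
      exact hq.weightedHomogeneousComponent_same
    rw [← hqp]
    exact h1

theorem cls_add {n d : ℕ} {A B C : GrMod n d} (h : ShortExact A B C) : cls B = cls A + cls C := by
  rw [cls, cls, cls, ← sub_eq_zero, ← Submodule.Quotient.mk_add, ← Submodule.Quotient.mk_sub, Submodule.Quotient.mk_eq_zero]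
  refine Submodule.subset_span (Or.inl ⟨A, B, C, h, ?_⟩)
  abel

theorem cls_irr {n d : ℕ} {M : GrMod n d} (h : Irrelevant M) : cls M = 0 := by
  rw [cls, Submodule.Quotient.mk_eq_zero]
  exact Submodule.subset_span (Or.inr ⟨M, h, rfl⟩)

open Pool.Agent.FY in
/-- In `K₀(X × X × X) ⊗ ℚ`, `X` the Fermat hypersurface of degree `d` in `ℙ^(n+1)`, `n ≥ 1` and `2 ≤ d ≤ n + 2`, the class
of the structure sheaf of the small diagonal is a linear combination of classes of line bundles `O(e)` and of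
sheaves `O_{Δ_ik}(e)`. -/
theorem result (n d : ℕ) (hn : 1 ≤ n) (hd : 2 ≤ d) (hdn : d ≤ n + 2) :
    cls (smallDiag n d) ∈ Submodule.span ℚ
      ({x | ∃ e : Fin 3 → ℤ, x = cls (line n d e)} ∪
        {x | ∃ (i k : Fin 3) (e : Fin 3 → ℤ), i ≠ k ∧ x = cls (pairDiag n d i k e)}) := by
  classical
  obtain ⟨m, rfl⟩ : ∃ m, n = m + 1 := ⟨n - 1, by omega⟩
  generalize hW : Submodule.span ℚ
      ({x | ∃ e : Fin 3 → ℤ, x = cls (line (m + 1) d e)} ∪
        {x | ∃ (i k : Fin 3) (e : Fin 3 → ℤ), i ≠ k ∧ x = cls (pairDiag (m + 1) d i k e)}) = W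
  let χ : GFun m (Set.range (sF m d)) (K0 (m + 1) d ⧸ W) :=
    { f := fun M _ _ c => if h : IsGr m c ∧ Module.Finite (Po (Ix m)) M ∧ Kil (Set.range (sF m d)) M then
        W.mkQ (cls (toGr m d M c h)) else 0
      add := fun A B C _ _ _ _ _ _ a b c i p hB hk ha hb hc hi hp hinj hsur hex => by
        have hA : Module.Finite (Po (Ix m)) A := Module.Finite.of_injective i hinj
        have hC : Module.Finite (Po (Ix m)) C := Module.Finite.of_surjective p hsur
        have hkA : Kil (Set.range (sF m d)) A := Kil.inj hinj hk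
        have hkC : Kil (Set.range (sF m d)) C := Kil.surj hsur hk
        rw [dif_pos ⟨hb, hB, hk⟩, dif_pos ⟨ha, hA, hkA⟩, dif_pos ⟨hc, hC, hkC⟩, ← map_add]
        refine congrArg _ (cls_add ⟨i, p, ?_, ?_, hinj, hsur, hex⟩)
        · intro e x hx
          exact (hi e x).symm.trans (congrArg i hx)
        · intro e x hx
          exact (hp e x).symm.trans (congrArg p hx) }
  have hχ : ∀ (A : Set (Pol (m + 1))) (hf : ∀ i, fermat (m + 1) d i ∈ A) (hA : ∀ r ∈ A, ∃ a, Homog (m + 1) r a)
      (e : Fin 3 → ℤ), χ.cy (Ideal.span A) e = W.mkQ (cls (quo (m + 1) d A hf hA e)) := by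
    intro A hf hA e
    have h1 : IsGr m (sh (cQ (cP m) (Ideal.span A)) e) := ((tGa m _ _ ((tGi tGa m).2.2 A hA).2).1 e)
    have h2 : Kil (Set.range (sF m d)) (Po (Ix m) ⧸ Ideal.span A) := by
      rintro _ ⟨i, rfl⟩ x
      exact (quo (m + 1) d A hf hA e).form_smul i x
    have h3 : IsGr m (sh (cQ (cP m) (Ideal.span A)) e) ∧ Module.Finite (Po (Ix m)) (Po (Ix m) ⧸ Ideal.span A) ∧
      Kil (Set.range (sF m d)) (Po (Ix m) ⧸ Ideal.span A) := ⟨h1, inferInstance, h2⟩
    rw [← toGr_quo m d A hf hA e h3]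
    exact dif_pos h3
  have hzer : Zer d χ := by
    refine ⟨?_, ?_, ?_⟩
    · intro i M _ _ c hc hM hk ⟨k, hkk⟩
      have h3 : IsGr m c ∧ Module.Finite (Po (Ix m)) M ∧ Kil (Set.range (sF m d)) M := ⟨hc, hM, hk⟩
      have h4 : χ.f M c = W.mkQ (cls (toGr m d M c h3)) := dif_pos h3
      rw [h4, cls_irr ⟨i, k, hkk⟩, map_zero]
    · intro e
      refine (hχ (Set.range (fermat (m + 1) d)) (fun i => ⟨i, rfl⟩) (forms_homog (m + 1) d) e).trans ?_
      exact (Submodule.Quotient.mk_eq_zero _).2 (hW ▸ Submodule.subset_span (Or.inl ⟨e, rfl⟩))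
    · intro i k hik e
      refine (hχ (pairGens (m + 1) d i k) (fun i => Or.inr ⟨i, rfl⟩) (pairGens_homog (m + 1) d i k) e).trans ?_
      exact (Submodule.Quotient.mk_eq_zero _).2 (hW ▸ Submodule.subset_span (Or.inr ⟨i, k, e, hik, rfl⟩))
  have key := allGT m d (K0 (m + 1) d ⧸ W) χ hd hdn hzer
  have h5 := (hχ (smallGens (m + 1) d) (fun i => Or.inr ⟨i, rfl⟩) (smallGens_homog (m + 1) d) 0).symm.trans key
  exact (Submodule.Quotient.mk_eq_zero _).1 h5

end Pool.Agent.Results.MP_b53bfe_ag.FermatDiagonalRelation
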