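import Pool.Agent.Lib.MP_b53bfe_ag.Q.AllX

/-!
# Voisin's question Q1 has a negative answer for quintic threefolds

`X ⊆ ℙ⁴` is the hypersurface of a quintic form `f` over `ℂ`. `K0 f` is the Grothendieck group `K₀(X × X × X) ⊗ ℚ` of coherent sheaves, described by finitely
generated `ℤ³`-graded modules over the coordinate ring of `X × X × X` modulo the modules killed by a power of all variables of one row; `cls` is the class.

The theorem: for every quintic form `f` whose `126` coefficients are algebraically independent over `ℚ` the hypersurface `X` is smooth, it contains only finitely many lines, and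
for every twist `e ∈ ℤ³` the class `∑_ℓ [O_{ℓ × ℓ × ℓ}(e)]` (sum over the lines `ℓ ⊆ X`) is not in the span of the classes `[O(a)]`, `a ∈ ℤ³`, nor in the larger span `decSpan`, which contains
the classes of all sheaves restricted from `X × X × ℙ⁴`. These forms are dense in the space of all quintic forms.

Relation to Chow groups: `X × X × X` is smooth, the Chern character is an isomorphism of rings `K₀(X³) ⊗ ℚ = A^*(X³)`, and `ch [O(a)] = exp (a₁ h₁ + a₂ h₂ + a₃ h₃)`, so the span of the `[O(a)]` is
mapped onto the ring of polynomials in `h₁, h₂, h₃`. For a line `ℓ` in a threefold with trivial canonical bundle `ch [O_ℓ(-1)] = [ℓ]` (Riemann-Roch), so for `e = (-1, -1, -1)` the class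
is mapped to `Γ = ∑_ℓ [ℓ × ℓ × ℓ] ∈ A⁶(X³)`. So the theorem says that `Γ` is not a polynomial in `h₁, h₂, h₃`.
-/

set_option autoImplicit false

noncomputable section

namespace Pool.Agent.Results.MP_b53bfe_ag.GammaNotPolynomial

open Pool.Agent.QV.Gr

/-- Negative answer to Q1 for `n = 3`: for all quintic threefolds `X` in a dense set (all `f` with algebraically independent coefficients) `Γ` is not a polynomial in
`h₁, h₂, h₃`. -/
theorem result :
    (∀ (f : MvPolynomial (Fin 5) ℂ) (hf : f.IsHomogeneous 5),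
      AlgebraicIndependent ℚ (fun m : {m : Fin 5 →₀ ℕ // m.degree = 5} => MvPolynomial.coeff m.1 f) →
        Smooth f ∧ (Lines f).Finite ∧ ∀ e : Fin 3 → ℤ, ∑ᶠ V ∈ Lines f, cls (lineCube hf V e) ∉ decSpan hf) ∧
    ∀ (g : MvPolynomial (Fin 5) ℂ) (ε : ℝ), g.IsHomogeneous 5 → 0 < ε →
      ∃ f : MvPolynomial (Fin 5) ℂ, f.IsHomogeneous 5 ∧
        AlgebraicIndependent ℚ (fun m : {m : Fin 5 →₀ ℕ // m.degree = 5} => MvPolynomial.coeff m.1 f) ∧
        ∀ m, ‖MvPolynomial.coeff m f - MvPolynomial.coeff m g‖ < ε :=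
  ⟨fun f hf h => ⟨(Pool.Agent.QV.aFnL.1 f hf h).1, (Pool.Agent.QV.aFnL.1 f hf h).2.1, (Pool.Agent.QV.aFnL.1 f hf h).2.2.1⟩,
    Pool.Agent.QV.aFnL.2.1⟩

end Pool.Agent.Results.MP_b53bfe_ag.GammaNotPolynomial
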